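import Mathlib
import Pool.Agent.Lib.MP_ec05cf_co.Crit93

/-!
# List colouring of linear hypergraphs: a degree criterion, and edges with two or at least `k`
vertices
-/

namespace Pool.Agent.Results.MP_ec05cf_co.LargeEdgesAndPairs

variable {V : Type} [DecidableEq V]

/-- A linear hypergraph, given by its finite set of edges: every edge has at least two elements,
and two distinct edges share at most one vertex. -/
def LinearHypergraph (E : Finset (Finset V)) : Prop :=
  (∀ e ∈ E, 2 ≤ e.card) ∧ ∀ e ∈ E, ∀ f ∈ E, e ≠ f → (e ∩ f).card ≤ 1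

/-- The number of neighbours of `v`: the vertices different from `v` in a common edge with `v`. -/
def neighbours (E : Finset (Finset V)) (v : V) : ℕ :=
  ((E.filter fun e => v ∈ e).biUnion fun e => e.erase v).card

/-- The number of edges of size two at `v`. -/
def pairs (E : Finset (Finset V)) (v : V) : ℕ :=
  (E.filter fun e => e.card = 2 ∧ v ∈ e).card

/-- The number of edges at `v` with at least `s` vertices. -/
def degree (E : Finset (Finset V)) (s : ℕ) (v : V) : ℕ :=
  (E.filter fun e => s ≤ e.card ∧ v ∈ e).card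

/-- The edges of size two form a bipartite graph: each of them has an end in `A` and an end
outside `A`. -/
def PairsBipartite (E : Finset (Finset V)) : Prop :=
  ∃ A : Set V, ∀ e ∈ E, e.card = 2 → ∃ u ∈ e, ∃ v ∈ e, u ∈ A ∧ v ∉ A

/-- There is an `L`-colouring: a choice of a colour `c e ∈ L e` for every edge such that edges that
intersect receive different colours. -/
def Colourable (E : Finset (Finset V)) {C : Type} (L : Finset V → Set C) : Prop :=
  ∃ c : {e // e ∈ E} → C, (∀ e, c e ∈ L e.1) ∧
    ∀ e f, e ≠ f → (e.1 ∩ f.1).Nonempty → c e ≠ c f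

/-- The list chromatic index is at most `k`: every assignment of lists with at least `k` colours
admits a colouring. -/
def ListIndexLE (E : Finset (Finset V)) (k : ℕ) : Prop :=
  ∀ (C : Type) (L : Finset V → Set C), (∀ e ∈ E, (k : ℕ∞) ≤ (L e).encard) → Colourable E L

theorem listIndexLE_of (E : Finset (Finset V)) (m : ℕ) (hm : E.Nonempty → 1 ≤ m)
    (h : ∀ (C : Type) [Nonempty C] (T : Finset V → Finset C), (∀ e ∈ E, m ≤ (T e).card) →
      Pool.Agent.Lib.MP_ec05cf_co.Good Pool.Agent.Lib.MP_ec05cf_co.Meet E T) :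
    ListIndexLE E m := by
  classical
  intro C L hL
  rcases E.eq_empty_or_nonempty with rfl | hne
  · exact ⟨fun e => (Finset.notMem_empty _ e.2).elim, fun e => (Finset.notMem_empty _ e.2).elim,
      fun e => (Finset.notMem_empty _ e.2).elim⟩
  have hm1 := hm hne
  obtain ⟨e0, he0⟩ := hne
  have hC : Nonempty C := by
    by_contra hno
    rw [not_nonempty_iff] at hno
    have h1 := hL e0 he0
    rw [Set.eq_empty_of_isEmpty (L e0), Set.encard_empty] at h1
    have h4 : m = 0 := by exact_mod_cast le_antisymm h1 bot_le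
    omega
  have hT : ∀ e : Finset V, ∃ T : Finset C, (T : Set C) ⊆ L e ∧ (e ∈ E → m ≤ T.card) := by
    intro e
    rcases (L e).finite_or_infinite with hfin | hinf
    · refine ⟨hfin.toFinset, by simp, ?_⟩
      intro he
      have h1 := hL e he
      rw [hfin.encard_eq_coe_toFinset_card] at h1
      exact_mod_cast h1
    · obtain ⟨T, hT1, hT2⟩ := hinf.exists_subset_card_eq m
      exact ⟨T, hT1, fun _ => hT2.ge⟩
  choose T hT1 hT2 using hT
  obtain ⟨c, hc1, hc2⟩ := h C T hT2
  refine ⟨fun e => c e.1, fun e => hT1 e.1 (hc1 e.1 e.2), ?_⟩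
  intro e f hef hm
  exact hc2 e.1 e.2 f.1 f.2 (fun h => hef (Subtype.ext h)) hm

theorem exists_finset {E : Finset (Finset V)} (h : PairsBipartite E) :
    ∃ A : Finset V, ∀ e ∈ E, e.card = 2 → (e ∩ A).card = 1 := by
  classical
  obtain ⟨A, hA⟩ := h
  refine ⟨(E.biUnion id).filter fun v => v ∈ A, ?_⟩
  intro e he he2
  obtain ⟨u, hu, v, hv, huA, hvA⟩ := hA e he he2
  have huv : u ≠ v := by rintro rfl; exact hvA huA
  have hee : ({u, v} : Finset V) = e := by
    apply Finset.eq_of_subset_of_card_le
    · intro w hw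
      rw [Finset.mem_insert, Finset.mem_singleton] at hw
      rcases hw with rfl | rfl
      · exact hu
      · exact hv
    · rw [he2, Finset.card_pair huv]
  rw [Finset.card_eq_one]
  refine ⟨u, ?_⟩
  ext w
  rw [Finset.mem_inter, Finset.mem_filter, Finset.mem_biUnion, Finset.mem_singleton]
  constructor
  · rintro ⟨hw, -, hwA⟩
    rw [← hee, Finset.mem_insert, Finset.mem_singleton] at hw
    rcases hw with rfl | rfl
    · rfl
    · exact (hvA hwA).elim
  · rintro rfl
    exact ⟨hu, ⟨e, he, hu⟩, huA⟩

theorem pos_of {E : Finset (Finset V)} (hE : LinearHypergraph E) {D : ℕ}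
    (hD : ∀ v, neighbours E v ≤ D) (hne : E.Nonempty) : 1 ≤ D := by
  obtain ⟨e0, he0⟩ := hne
  obtain ⟨u, hu, v, hv, huv⟩ := Finset.one_lt_card.1 (lt_of_lt_of_le one_lt_two (hE.1 e0 he0))
  refine le_trans (Finset.card_pos.2 ⟨v, ?_⟩) (hD u)
  exact Finset.mem_biUnion.2 ⟨e0, Finset.mem_filter.2 ⟨he0, hu⟩, Finset.mem_erase.2 ⟨huv.symm, hv⟩⟩

theorem neighbours_le [Finite V] (E : Finset (Finset V)) (v : V) :
    neighbours E v ≤ Nat.card V - 1 := by
  have : Fintype V := Fintype.ofFinite V
  have h3 : neighbours E v ≤ ((Finset.univ : Finset V).erase v).card := by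
    apply Finset.card_le_card
    intro w hw
    rw [Finset.mem_biUnion] at hw
    obtain ⟨e, -, hw⟩ := hw
    exact Finset.mem_erase.2 ⟨(Finset.mem_erase.1 hw).1, Finset.mem_univ w⟩
  rw [Finset.card_erase_of_mem (Finset.mem_univ v), Finset.card_univ,
    ← Nat.card_eq_fintype_card] at h3
  exact h3

theorem pairs_eq (E : Finset (Finset V)) (v : V) :
    Pool.Agent.Lib.MP_ec05cf_co.dg (E.filter fun e => e.card = 2) v = pairs E v := by
  unfold Pool.Agent.Lib.MP_ec05cf_co.dg pairs
  rw [Finset.filter_filter]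

/-- (0) Let `d_s(v)` be the number of edges at `v` with at least `s` vertices. The list chromatic
index is at most `n` if for every edge `e` of size `s ≥ 3` the sum of `d_s(v) - 1` over `v ∈ e` is
less than `n`, and for every edge `{u, v}` of size two (both orders) `d_2(u) + d_3(v) ≤ n`, the
2-edges forming a bipartite graph, or `d_2(u) + d_3(v) + ⌊a(v)/2⌋ ≤ n`, where `a(v)` is the number
of 2-edges at `v`. Let now `k ≥ 3`, and let every edge have two or at least `k` vertices.
(1) If the 2-edges form a bipartite graph and every vertex has at most `D` neighbours, the list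
chromatic index is at most `⌊kD/(k-1)⌋`.
(2) If there are at most `n` vertices, or fewer than `n` neighbours of every vertex,
`n ≤ k(k-1)+1`, every vertex lies in at most `t` edges of size two, and either the 2-edges form a
bipartite graph and `(k-2)t + 2n - 3 ≤ (k-1)n`, or `(3k-7)t + 4n - 4 ≤ 2(k-1)n`, then the list
chromatic index is at most `n`. -/
theorem result {V : Type} [DecidableEq V] (E : Finset (Finset V)) (hE : LinearHypergraph E) :
    (∀ n : ℕ, (∀ e ∈ E, 3 ≤ e.card → ∑ v ∈ e, (degree E e.card v - 1) < n) →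
      ((PairsBipartite E ∧ ∀ e ∈ E, e.card = 2 → ∀ u ∈ e, ∀ v ∈ e, u ≠ v →
          degree E 2 u + degree E 3 v ≤ n) ∨
        (∀ e ∈ E, e.card = 2 → ∀ u ∈ e, ∀ v ∈ e, u ≠ v →
          degree E 2 u + degree E 3 v + pairs E v / 2 ≤ n)) → ListIndexLE E n) ∧
    (∀ k : ℕ, 3 ≤ k → (∀ e ∈ E, e.card = 2 ∨ k ≤ e.card) →
      (PairsBipartite E → ∀ D : ℕ, (∀ v, neighbours E v ≤ D) →
        ListIndexLE E (k * D / (k - 1))) ∧
      (∀ n t : ℕ, ((∀ v, neighbours E v < n) ∨ (Finite V ∧ Nat.card V ≤ n)) →
        n + k ≤ k ^ 2 + 1 → (∀ v, pairs E v ≤ t) →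
        ((PairsBipartite E ∧ k * t + 3 * n ≤ k * n + 2 * t + 3) ∨
          3 * k * t + 6 * n ≤ 2 * k * n + 7 * t + 4) → ListIndexLE E n)) := by
  refine ⟨?_, ?_⟩
  · intro n h3 h2
    apply listIndexLE_of E n
    · rintro ⟨e, he⟩
      by_cases hc : e.card = 2
      · obtain ⟨u, v, huv, rfl⟩ := Finset.card_eq_two.1 hc
        have h4 : 1 ≤ degree E 2 u :=
          Finset.card_pos.2 ⟨_, Finset.mem_filter.2 ⟨he, hc.ge, by simp⟩⟩
        rcases h2 with ⟨-, h2⟩ | h2
        · have := h2 _ he hc u (by simp) v (by simp) huv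
          omega
        · have := h2 _ he hc u (by simp) v (by simp) huv
          omega
      · have := h3 e he (by have := hE.1 e he; omega)
        omega
    · intro C _ T hT
      refine Pool.Agent.Lib.MP_ec05cf_co.crit E hE h3 ?_ T hT
      rcases h2 with ⟨hb, h2⟩ | h2
      · exact Or.inl ⟨exists_finset hb, h2⟩
      · exact Or.inr h2
  intro k hk hEk
  constructor
  · intro hb D hD
    obtain ⟨A, hA⟩ := exists_finset hb
    apply listIndexLE_of E _ ?_ ?_
    · intro hne
      have h1 := pos_of hE hD hne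
      rw [Pool.Agent.Lib.MP_ec05cf_co.ratio_eq hk]
      exact h1.trans (Nat.le_add_right _ _)
    · intro C _ T hT
      exact Pool.Agent.Lib.MP_ec05cf_co.main_ratio E hE hk hEk A hA hD T hT
  · intro n t hn hnk ht hor
    have hD : ∀ v, neighbours E v ≤ n - 1 := by
      intro v
      rcases hn with h | ⟨h, h'⟩
      · have := h v
        omega
      · have := neighbours_le E v
        omega
    have hpos : E.Nonempty → 1 ≤ n := by
      intro hne
      have := pos_of hE hD hne
      omega
    apply listIndexLE_of E _ hpos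
    intro C _ T hT
    rcases E.eq_empty_or_nonempty with rfl | hne
    · exact ⟨fun _ => Classical.arbitrary C, by simp, by simp⟩
    have ht' : ∀ v, Pool.Agent.Lib.MP_ec05cf_co.dg (E.filter fun e => e.card = 2) v ≤ t := by
      intro v
      rw [pairs_eq]
      exact ht v
    rcases hor with ⟨hb, hc⟩ | hc
    · obtain ⟨A, hA⟩ := exists_finset hb
      exact Pool.Agent.Lib.MP_ec05cf_co.main_exact E hE hk hEk A hA hD (hpos hne) hnk ht' hc T hT
    · exact Pool.Agent.Lib.MP_ec05cf_co.main_general E hE hk hEk hD (hpos hne) hnk ht' hc T hT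

end Pool.Agent.Results.MP_ec05cf_co.LargeEdgesAndPairs
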