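import Mathlib
import Pool.Agent.Lib.MP_ec05cf_co.Hyper93

/-!
# List colouring of linear hypergraphs from lists of size about `3/2` times the number of neighbours
-/

namespace Pool.Agent.Results.MP_ec05cf_co.ThreeHalves

variable {V : Type} [DecidableEq V]

/-- A linear hypergraph, given by its finite set of edges: every edge has at least two elements,
and two distinct edges share at most one vertex. -/
def LinearHypergraph (E : Finset (Finset V)) : Prop :=
  (∀ e ∈ E, 2 ≤ e.card) ∧ ∀ e ∈ E, ∀ f ∈ E, e ≠ f → (e ∩ f).card ≤ 1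

/-- The number of neighbours of `v`: the vertices different from `v` in a common edge with `v`. -/
def neighbours (E : Finset (Finset V)) (v : V) : ℕ :=
  ((E.filter fun e => v ∈ e).biUnion fun e => e.erase v).card

/-- There is an `L`-colouring: a choice of a colour `c e ∈ L e` for every edge such that edges that
intersect receive different colours. -/
def Colourable (E : Finset (Finset V)) {C : Type} (L : Finset V → Set C) : Prop :=
  ∃ c : {e // e ∈ E} → C, (∀ e, c e ∈ L e.1) ∧
    ∀ e f, e ≠ f → (e.1 ∩ f.1).Nonempty → c e ≠ c f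

/-- The list chromatic index is at most `k`: every assignment of lists with at least `k` colours
admits a colouring. -/
def ListIndexLE (E : Finset (Finset V)) (k : ℕ) : Prop :=
  ∀ (C : Type) (L : Finset V → Set C), (∀ e ∈ E, (k : ℕ∞) ≤ (L e).encard) → Colourable E L

theorem local_form (E : Finset (Finset V)) (hE : LinearHypergraph E) (C : Type)
    (L : Finset V → Set C)
    (hL : ∀ e ∈ E, ∀ u ∈ e, ∀ v ∈ e, u ≠ v →
      ((neighbours E u + neighbours E v / 2 : ℕ) : ℕ∞) ≤ (L e).encard) : Colourable E L := by
  classical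
  rcases E.eq_empty_or_nonempty with rfl | ⟨e0, he0⟩
  · exact ⟨fun e => (Finset.notMem_empty _ e.2).elim, fun e => (Finset.notMem_empty _ e.2).elim,
      fun e => (Finset.notMem_empty _ e.2).elim⟩
  -- there is a colour
  have hC : Nonempty C := by
    obtain ⟨u, hu, v, hv, huv⟩ := Finset.one_lt_card.1 (lt_of_lt_of_le one_lt_two (hE.1 e0 he0))
    have h1 := hL e0 he0 u hu v hv huv
    have h2 : 1 ≤ neighbours E u := by
      apply Finset.card_pos.2
      refine ⟨v, Finset.mem_biUnion.2 ⟨e0, Finset.mem_filter.2 ⟨he0, hu⟩, ?_⟩⟩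
      exact Finset.mem_erase.2 ⟨huv.symm, hv⟩
    by_contra hne
    rw [not_nonempty_iff] at hne
    have h3 : L e0 = ∅ := Set.eq_empty_of_isEmpty _
    rw [h3, Set.encard_empty] at h1
    have h4 : neighbours E u + neighbours E v / 2 = 0 := by
      exact_mod_cast le_antisymm h1 bot_le
    omega
  -- finite sublists
  have hT : ∀ e : Finset V, ∃ T : Finset C, (T : Set C) ⊆ L e ∧ (e ∈ E → ∀ u ∈ e, ∀ v ∈ e, u ≠ v →
      neighbours E u + neighbours E v / 2 ≤ T.card) := by
    intro e
    rcases (L e).finite_or_infinite with hfin | hinf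
    · refine ⟨hfin.toFinset, by simp, ?_⟩
      intro he u hu v hv huv
      have h1 := hL e he u hu v hv huv
      rw [hfin.encard_eq_coe_toFinset_card] at h1
      exact_mod_cast h1
    · obtain ⟨T, hT1, hT2⟩ := hinf.exists_subset_card_eq (2 * e.sup (neighbours E))
      refine ⟨T, hT1, ?_⟩
      intro _ u hu v hv _
      have h1 : neighbours E u ≤ e.sup (neighbours E) := Finset.le_sup hu
      have h2 : neighbours E v ≤ e.sup (neighbours E) := Finset.le_sup hv
      omega
  choose T hT1 hT2 using hT
  obtain ⟨c, hc1, hc2⟩ := Pool.Agent.Lib.MP_ec05cf_co.main_finset E hE T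
    (fun e he u hu v hv huv => hT2 e he u hu v hv huv)
  refine ⟨fun e => c e.1, fun e => hT1 e.1 (hc1 e.1 e.2), ?_⟩
  intro e f hef hm
  exact hc2 e.1 e.2 f.1 f.2 (fun h => hef (Subtype.ext h)) hm

/-- (1) If the list of every edge `e` has at least `N(u) + ⌊N(v)/2⌋` colours for all distinct
`u, v ∈ e`, where `N` is the number of neighbours, then the linear hypergraph is `L`-colourable.
(2) If every vertex has at most `D` neighbours, the list chromatic index is at most `⌊3D/2⌋`.
(3) The list chromatic index of a linear hypergraph on `n` vertices is at most `⌊3(n-1)/2⌋`. -/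
theorem result {V : Type} [DecidableEq V] (E : Finset (Finset V)) (hE : LinearHypergraph E) :
    (∀ (C : Type) (L : Finset V → Set C), (∀ e ∈ E, ∀ u ∈ e, ∀ v ∈ e, u ≠ v →
      ((neighbours E u + neighbours E v / 2 : ℕ) : ℕ∞) ≤ (L e).encard) → Colourable E L) ∧
    (∀ D : ℕ, (∀ v, neighbours E v ≤ D) → ListIndexLE E (3 * D / 2)) ∧
    (Finite V → ListIndexLE E (3 * (Nat.card V - 1) / 2)) := by
  have h2 : ∀ D : ℕ, (∀ v, neighbours E v ≤ D) → ListIndexLE E (3 * D / 2) := by
    intro D hD C L hL
    apply local_form E hE C L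
    intro e he u _ v _ _
    refine le_trans ?_ (hL e he)
    have h3 := hD u
    have h4 := hD v
    exact_mod_cast (by omega : neighbours E u + neighbours E v / 2 ≤ 3 * D / 2)
  refine ⟨local_form E hE, h2, ?_⟩
  intro hfin
  apply h2
  intro v
  have : Fintype V := Fintype.ofFinite V
  have h3 : neighbours E v ≤ ((Finset.univ : Finset V).erase v).card := by
    apply Finset.card_le_card
    intro w hw
    rw [Finset.mem_biUnion] at hw
    obtain ⟨e, -, hw⟩ := hw
    exact Finset.mem_erase.2 ⟨(Finset.mem_erase.1 hw).1, Finset.mem_univ w⟩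
  rw [Finset.card_erase_of_mem (Finset.mem_univ v), Finset.card_univ,
    ← Nat.card_eq_fintype_card] at h3
  exact h3

end Pool.Agent.Results.MP_ec05cf_co.ThreeHalves
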